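import Pool.Agent.P8H24.PG.Stm2
import Pool.Agent.H697R3.NSPD

/-!
# Packages NF and NF2: vector states with prescribed values
-/

set_option autoImplicit false

open Finset Filter Topology
open scoped InnerProductSpace ComplexOrder

namespace Pool.Agent.P8H78.PG

open Pool.Agent.P8H24.PG

/-- vector states of the quasi-regular representation of `Γ / L` -/
theorem vec {Γ A : Type} [Group Γ] [CStarAlgebra A] {u : Γ →* unitary A} (hu : IsGroupAlgebra u)
    (L : Subgroup Γ) [DecidablePred (· ∈ L)] {ι : Type} (I : Finset ι) (hI : I.Nonempty)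
    (W : ι → Γ) (C : ι → ℂ)
    (hC : ∀ i ∈ I, ‖C i‖ = 1) (hW : ∀ i ∈ I, ∀ j ∈ I, (W i)⁻¹ * W j ∈ L → i = j) :
    ∃ ρ : A →L[ℂ] ℂ, ‖ρ‖ ≤ 1 ∧ ∀ g, ρ (u g : A) = (I.card : ℂ)⁻¹ *
      ∑ i ∈ I, ∑ j ∈ I, star (C i) * C j * (if (W i)⁻¹ * (g * W j) ∈ L then 1 else 0) := by
  classical
  let E := lp (fun _ : Γ ⧸ L => ℂ) 2
  let v : Γ → E := fun j => lp.single 2 (QuotientGroup.mk j : Γ ⧸ L) 1
  let k : Matrix Γ Γ ℂ := fun i j => if i⁻¹ * j ∈ L then 1 else 0
  have hk : ∀ i j, k i j = ⟪v i, v j⟫_ℂ := by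
    intro i j
    show (if i⁻¹ * j ∈ L then 1 else 0) = _
    rw [lp.inner_single_left]
    by_cases hij : i⁻¹ * j ∈ L
    · rw [if_pos hij]
      have h1 : (QuotientGroup.mk i : Γ ⧸ L) = QuotientGroup.mk j := QuotientGroup.eq.2 hij
      have h3 : (v j : Γ ⧸ L → ℂ) (QuotientGroup.mk i) = 1 := by
        rw [h1]
        exact lp.single_apply_self _ _ _
      rw [h3]
      simp
    · rw [if_neg hij]
      have h1 : (QuotientGroup.mk i : Γ ⧸ L) ≠ QuotientGroup.mk j := fun h =>
        hij (QuotientGroup.eq.1 h)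
      have h3 : (v j : Γ ⧸ L → ℂ) (QuotientGroup.mk i) = 0 :=
        lp.single_apply_ne _ _ _ h1
      rw [h3, inner_zero_right]
  have hps : k.PosSemidef := by
    refine ⟨?_, fun x => ?_⟩
    · ext i j
      rw [Matrix.conjTranspose_apply, hk, hk, Complex.star_def, inner_conj_symm]
    · have h1 : (x.sum fun i xi => x.sum fun j xj => star xi * k i j * xj) =
          ⟪x.sum fun i xi => xi • v i, x.sum fun i xi => xi • v i⟫_ℂ := by
        simp only [Finsupp.sum]
        rw [sum_inner]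
        refine Finset.sum_congr rfl fun i _ => ?_
        rw [inner_sum]
        refine Finset.sum_congr rfl fun j _ => ?_
        rw [inner_smul_left, inner_smul_right, hk, Complex.star_def]
        ring
      rw [h1, inner_self_eq_norm_sq_to_K]
      have : (0 : ℂ) ≤ ((‖x.sum fun i xi => xi • v i‖ ^ 2 : ℝ) : ℂ) :=
        Complex.zero_le_real.2 (sq_nonneg _)
      simpa using this
  obtain ⟨H, i1, i2, i3, ϖ, w, hw, hϖ⟩ := H697R3.NS.gns_kernel (G := Γ) (X := Γ) k hps
    (fun g x y => by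
      show (if (g * x)⁻¹ * (g * y) ∈ L then (1 : ℂ) else 0) = _
      have : (g * x)⁻¹ * (g * y) = x⁻¹ * y := by group
      rw [this])
  obtain ⟨π, hπ⟩ := hu.lift H ϖ
  have hπn : ∀ a, ‖π a‖ ≤ ‖a‖ := fun a => NonUnitalStarAlgHom.norm_apply_le π a
  have hcard : (0 : ℝ) < I.card := by exact_mod_cast hI.card_pos
  -- the vector
  set ξ : H := ∑ i ∈ I, C i • w (W i) with hξ
  have hinner : ∀ g : Γ, ⟪ξ, (ϖ g : H →L[ℂ] H) ξ⟫_ℂ =
      ∑ i ∈ I, ∑ j ∈ I, star (C i) * C j * (if (W i)⁻¹ * (g * W j) ∈ L then 1 else 0) := by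
    intro g
    rw [hξ, map_sum, sum_inner]
    refine Finset.sum_congr rfl fun i _ => ?_
    rw [inner_sum]
    refine Finset.sum_congr rfl fun j _ => ?_
    rw [map_smul, hϖ, inner_smul_left, inner_smul_right, hw, Complex.star_def]
    show (starRingEnd ℂ) (C i) * (C j * (if (W i)⁻¹ * (g • W j) ∈ L then 1 else 0)) = _
    rw [smul_eq_mul, mul_assoc]
  have hξn : ‖ξ‖ ^ 2 = I.card := by
    have h1 := hinner 1
    have h2 : (ϖ 1 : H →L[ℂ] H) ξ = ξ := by
      rw [map_one]
      rfl
    rw [h2, inner_self_eq_norm_sq_to_K] at h1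
    have h3 : (∑ i ∈ I, ∑ j ∈ I, star (C i) * C j *
        (if (W i)⁻¹ * (1 * W j) ∈ L then (1 : ℂ) else 0)) = ∑ i ∈ I, (1 : ℂ) := by
      refine Finset.sum_congr rfl fun i hi => ?_
      rw [Finset.sum_eq_single i]
      · rw [one_mul, inv_mul_cancel, if_pos L.one_mem, mul_one, Complex.star_def, mul_comm,
          Complex.mul_conj, Complex.normSq_eq_norm_sq, hC i hi]
        norm_num
      · intro j hj hji
        rw [one_mul, if_neg, mul_zero]
        intro hc
        exact hji (hW i hi j hj hc).symm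
      · intro h
        exact absurd hi h
    rw [h3, Finset.sum_const, nsmul_eq_mul, mul_one] at h1
    have h4 : (((‖ξ‖ ^ 2 : ℝ)) : ℂ) = ((I.card : ℝ) : ℂ) := by
      push_cast
      exact h1
    exact_mod_cast h4
  let ρl : A →ₗ[ℂ] ℂ :=
    { toFun := fun a => (I.card : ℂ)⁻¹ * ⟪ξ, π a ξ⟫_ℂ
      map_add' := fun a b => by rw [map_add, add_apply, inner_add_right, mul_add]
      map_smul' := fun c a => by
        rw [map_smul, smul_apply, inner_smul_right, RingHom.id_apply,
          smul_eq_mul]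
        ring }
  have hb : ∀ a, ‖ρl a‖ ≤ 1 * ‖a‖ := fun a => by
    have h1 : ‖⟪ξ, π a ξ⟫_ℂ‖ ≤ I.card * ‖a‖ := by
      calc ‖⟪ξ, π a ξ⟫_ℂ‖ ≤ ‖ξ‖ * ‖π a ξ‖ := norm_inner_le_norm _ _
        _ ≤ ‖ξ‖ * (‖π a‖ * ‖ξ‖) := by gcongr; exact (π a).le_opNorm _
        _ ≤ ‖ξ‖ * (‖a‖ * ‖ξ‖) := by gcongr; exact hπn a
        _ = ‖ξ‖ ^ 2 * ‖a‖ := by ring
        _ = I.card * ‖a‖ := by rw [hξn]
    show ‖(I.card : ℂ)⁻¹ * ⟪ξ, π a ξ⟫_ℂ‖ ≤ 1 * ‖a‖
    rw [norm_mul, norm_inv, Complex.norm_natCast, one_mul, inv_mul_le_iff₀ hcard]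
    exact h1
  refine ⟨ρl.mkContinuous 1 hb, LinearMap.mkContinuous_norm_le _ zero_le_one _, fun g => ?_⟩
  show (I.card : ℂ)⁻¹ * ⟪ξ, π (u g) ξ⟫_ℂ = _
  rw [hπ, hinner]

/-- the kernel of `q` in `K` -/
def kerK {Γ M : Type} [Group Γ] [AddCommGroup M] (K : Subgroup Γ) (q : Γ → M)
    (hq : ∀ x ∈ K, ∀ y ∈ K, q (x * y) = q x + q y) : Subgroup Γ where
  carrier := {x | x ∈ K ∧ q x = 0}
  mul_mem' := fun {x y} hx hy => ⟨K.mul_mem hx.1 hy.1, by rw [hq x hx.1 y hy.1, hx.2, hy.2, add_zero]⟩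
  one_mem' := ⟨K.one_mem, by
    have h := hq 1 K.one_mem 1 K.one_mem
    rw [mul_one] at h
    exact left_eq_add.1 h⟩
  inv_mem' := fun {x} hx => ⟨K.inv_mem hx.1, by
    have h1 := hq x hx.1 x⁻¹ (K.inv_mem hx.1)
    have h0 : q 1 = 0 := by
      have h := hq 1 K.one_mem 1 K.one_mem
      rw [mul_one] at h
      exact left_eq_add.1 h
    rw [mul_inv_cancel, h0, hx.2, zero_add] at h1
    exact h1.symm⟩

theorem mem_kerK {Γ M : Type} [Group Γ] [AddCommGroup M] {K : Subgroup Γ} {q : Γ → M}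
    {hq : ∀ x ∈ K, ∀ y ∈ K, q (x * y) = q x + q y} {x y : Γ} (hx : x ∈ K) (hy : y ∈ K) :
    x⁻¹ * y ∈ kerK K q hq ↔ q x = q y := by
  have hK : x⁻¹ * y ∈ K := K.mul_mem (K.inv_mem hx) hy
  have h1 := hq x hx _ hK
  rw [mul_inv_cancel_left] at h1
  constructor
  · rintro ⟨-, h⟩
    rw [h1, h, add_zero]
  · intro h
    refine ⟨hK, ?_⟩
    rw [h] at h1
    exact left_eq_add.1 h1

theorem exists_W {Γ M : Type} [Group Γ] [AddCommGroup M] (K : Subgroup Γ) (q : Γ → M)
    (hq : ∀ x ∈ K, ∀ y ∈ K, q (x * y) = q x + q y) (w : ℕ → Γ) (hw : ∀ j, w j ∈ K) (S : Finset ℕ) :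
    ∃ g ∈ K, q g = ∑ j ∈ S, q (w j) := by
  classical
  induction S using Finset.induction_on with
  | empty =>
    refine ⟨1, K.one_mem, ?_⟩
    have h := hq 1 K.one_mem 1 K.one_mem
    rw [mul_one] at h
    rw [sum_empty]
    exact left_eq_add.1 h
  | insert a S ha ih =>
    obtain ⟨g, hg, hg'⟩ := ih
    exact ⟨w a * g, K.mul_mem (hw a) hg, by rw [hq _ (hw a) _ hg, hg', sum_insert ha]⟩

theorem sum_ind {M : Type} [AddCommGroup M] {n : ℕ} {S : Finset ℕ} (hS : S ⊆ range n)
    (g : ℕ → M) : ∑ i ∈ range n, (if i ∈ S then (1 : ℤ) else 0) • g i = ∑ i ∈ S, g i := by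
  have h1 : ∀ i, (if i ∈ S then (1 : ℤ) else 0) • g i = if i ∈ S then g i else 0 := by
    intro i
    split_ifs <;> simp
  simp only [h1]
  rw [Finset.sum_ite_mem, Finset.inter_eq_right.2 hS]

theorem sum_rel {M : Type} [AddCommGroup M] {n : ℕ} {S T : Finset ℕ} (hS : S ⊆ range n)
    (hT : T ⊆ range n) (g : ℕ → M) :
    ∑ i ∈ range n, ((if i ∈ T then (1 : ℤ) else 0) - (if i ∈ S then 1 else 0)) • g i =
      ∑ i ∈ T, g i - ∑ i ∈ S, g i := by
  simp only [sub_smul, Finset.sum_sub_distrib]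
  rw [sum_ind hS, sum_ind hT]

theorem sum_rel' {M : Type} [AddCommGroup M] {n j : ℕ} (hj : j < n) {S T : Finset ℕ}
    (hS : S ⊆ range n) (hT : T ⊆ range n) (g : ℕ → M) :
    ∑ i ∈ range n, ((if i = j then (1 : ℤ) else 0) + (if i ∈ T then 1 else 0) -
      (if i ∈ S then 1 else 0)) • g i = g j + ∑ i ∈ T, g i - ∑ i ∈ S, g i := by
  have h1 : ∑ i ∈ range n, (if i = j then (1 : ℤ) else 0) • g i = g j := by
    rw [Finset.sum_eq_single j]
    · simp
    · intro b _ hb
      rw [if_neg hb, zero_smul]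
    · intro h
      exact absurd (mem_range.2 hj) h
  simp only [sub_smul, add_smul, Finset.sum_sub_distrib, Finset.sum_add_distrib]
  rw [sum_ind hS, sum_ind hT, h1]

theorem star_mul_self_one {z : ℂ} (hz : ‖z‖ = 1) : star z * z = 1 := by
  rw [Complex.star_def, mul_comm, Complex.mul_conj, Complex.normSq_eq_norm_sq, hz]
  norm_num

theorem nf : S_NF := by
  classical
  intro Γ A M _ _ _ u hu K q hq n w hw hrel c hc
  choose W hWK hWq using exists_W K q hq w hw
  let C : Finset ℕ → ℂ := fun S => ∏ i ∈ S, c i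
  have hC1 : ∀ S, ‖C S‖ = 1 := by
    intro S
    show ‖∏ i ∈ S, c i‖ = 1
    rw [norm_prod]
    exact Finset.prod_eq_one fun i _ => hc i
  obtain ⟨ρ, hρ, hρg⟩ := vec hu (kerK K q hq) (powerset (range n)) ⟨∅, by simp⟩ W C
    (fun S _ => hC1 S) (by
      intro S hS T hT h
      rw [mem_powerset] at hS hT
      rw [mem_kerK (hWK S) (hWK T), hWq, hWq] at h
      have h1 := hrel (fun i => (if i ∈ T then (1 : ℤ) else 0) - (if i ∈ S then 1 else 0))
        (fun i => by split_ifs <;> simp) (by rw [sum_rel hS hT, h, sub_self])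
      ext i
      by_cases hi : i < n
      · have h2 := h1 i hi
        by_cases hiS : i ∈ S <;> by_cases hiT : i ∈ T <;> simp [hiS, hiT] at h2 ⊢
      · exact ⟨fun h3 => absurd (mem_range.1 (hS h3)) hi, fun h3 => absurd (mem_range.1 (hT h3)) hi⟩)
  refine ⟨ρ, hρ, fun j hj => ?_⟩
  have hcond : ∀ S ∈ powerset (range n), ∀ T ∈ powerset (range n),
      ((W S)⁻¹ * (w j * W T) ∈ kerK K q hq ↔ j ∉ T ∧ S = insert j T) := by
    intro S hS T hT
    rw [mem_powerset] at hS hT
    rw [mem_kerK (hWK S) (K.mul_mem (hw j) (hWK T)), hq _ (hw j) _ (hWK T), hWq, hWq]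
    constructor
    · intro h
      have h1 := hrel (fun i => (if i = j then (1 : ℤ) else 0) + (if i ∈ T then 1 else 0) -
        (if i ∈ S then 1 else 0)) (fun i => by split_ifs <;> simp)
        (by rw [sum_rel' hj hS hT, h, sub_self])
      have h2 : ∀ i, i < n → ((if i = j then (1 : ℤ) else 0) + (if i ∈ T then 1 else 0) -
        (if i ∈ S then 1 else 0)) = 0 := h1
      have hjT : j ∉ T := by
        intro hc
        have h3 := h2 j hj
        rw [if_pos rfl, if_pos hc] at h3
        split_ifs at h3 <;> omega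
      refine ⟨hjT, ?_⟩
      ext i
      rw [mem_insert]
      by_cases hi : i < n
      · have h3 := h2 i hi
        by_cases hij : i = j
        · subst hij
          rw [if_pos rfl, if_neg hjT] at h3
          by_cases hiS : i ∈ S
          · simp [hiS]
          · rw [if_neg hiS] at h3
            omega
        · rw [if_neg hij] at h3
          by_cases hiS : i ∈ S <;> by_cases hiT : i ∈ T <;> simp [hiS, hiT, hij] at h3 ⊢
      · constructor
        · intro h3
          exact absurd (mem_range.1 (hS h3)) hi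
        · rintro (rfl | h3)
          · exact absurd hj hi
          · exact absurd (mem_range.1 (hT h3)) hi
    · rintro ⟨h1, rfl⟩
      rw [sum_insert h1]
  have hsum : ∑ S ∈ powerset (range n), ∑ T ∈ powerset (range n), star (C S) * C T *
      (if (W S)⁻¹ * (w j * W T) ∈ kerK K q hq then (1 : ℂ) else 0) = 2 ^ (n - 1) * star (c j) := by
    rw [Finset.sum_comm]
    have h1 : ∀ T ∈ powerset (range n), ∑ S ∈ powerset (range n), star (C S) * C T *
        (if (W S)⁻¹ * (w j * W T) ∈ kerK K q hq then (1 : ℂ) else 0) =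
        if j ∉ T then star (c j) else 0 := by
      intro T hT
      by_cases hjT : j ∈ T
      · rw [if_neg (not_not.2 hjT)]
        refine Finset.sum_eq_zero fun S hS => ?_
        rw [if_neg, mul_zero]
        intro h
        exact ((hcond S hS T hT).1 h).1 hjT
      · rw [if_pos hjT]
        have hins : insert j T ∈ powerset (range n) := by
          rw [mem_powerset] at hT ⊢
          exact insert_subset (mem_range.2 hj) hT
        rw [Finset.sum_eq_single (insert j T)]
        · rw [if_pos ((hcond _ hins T hT).2 ⟨hjT, rfl⟩), mul_one]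
          show star (∏ i ∈ insert j T, c i) * (∏ i ∈ T, c i) = star (c j)
          rw [prod_insert hjT, star_mul', mul_assoc, star_mul_self_one (hC1 T), mul_one]
        · intro S hS hne
          rw [if_neg, mul_zero]
          intro h
          exact hne ((hcond S hS T hT).1 h).2
        · intro h
          exact absurd hins h
    rw [Finset.sum_congr rfl h1, ← Finset.sum_filter, Finset.sum_const, nsmul_eq_mul]
    have h2 : (powerset (range n)).filter (fun T => j ∉ T) = powerset ((range n).erase j) := by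
      ext T
      rw [mem_filter, mem_powerset, mem_powerset, subset_erase]
    rw [h2, card_powerset, card_erase_of_mem (mem_range.2 hj), card_range]
    push_cast
    rfl
  rw [hρg, hsum, card_powerset, card_range]
  have hn : (2 : ℂ) ^ n = 2 ^ (n - 1) * 2 := by
    rw [← pow_succ]
    congr 1
    omega
  have h2 : (2 : ℂ) ^ (n - 1) ≠ 0 := by positivity
  have h3 : c j * ((((2 ^ n : ℕ) : ℂ))⁻¹ * (2 ^ (n - 1) * star (c j))) = 1 / 2 := by
    push_cast
    rw [hn, mul_inv]
    calc c j * (((2 : ℂ) ^ (n - 1))⁻¹ * 2⁻¹ * (2 ^ (n - 1) * star (c j)))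
        = (((2 : ℂ) ^ (n - 1))⁻¹ * 2 ^ (n - 1)) * (star (c j) * c j) * 2⁻¹ := by ring
      _ = 1 / 2 := by
        rw [inv_mul_cancel₀ h2, star_mul_self_one (hc j)]
        norm_num
  rw [h3]
  norm_num

theorem nf2 : S_NF2 := by
  classical
  intro Γ A M _ _ _ u hu K q hq n w hw h2q hrel c hc
  choose W hWK hWq using exists_W K q hq w hw
  -- relations have even coefficients
  have heven : ∀ a : ℕ → ℤ, ∑ i ∈ range n, a i • q (w i) = 0 → ∀ i < n, a i % 2 = 0 := by
    intro a ha
    refine hrel (fun i => a i % 2) (fun i => by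
      rcases Int.emod_two_eq_zero_or_one (a i) with h | h
      · exact Or.inl h
      · exact Or.inr h) ?_
    rw [← ha]
    refine Finset.sum_congr rfl fun i _ => ?_
    have h1 : a i = a i % 2 + (a i / 2) * 2 := by
      have := Int.emod_add_mul_ediv (a i) 2
      linarith
    conv_rhs => rw [h1, add_smul, mul_smul, h2q, smul_zero, add_zero]
  have hcsq : ∀ i, c i * c i = 1 := by
    intro i
    rcases hc i with h | h <;> rw [h] <;> norm_num
  have hcstar : ∀ i, star (c i) = c i := by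
    intro i
    rcases hc i with h | h <;> rw [h] <;> simp
  let C : Finset ℕ → ℂ := fun S => ∏ i ∈ S, c i
  have hCsq : ∀ S, C S * C S = 1 := by
    intro S
    show (∏ i ∈ S, c i) * ∏ i ∈ S, c i = 1
    rw [← Finset.prod_mul_distrib]
    exact Finset.prod_eq_one fun i _ => hcsq i
  have hCstar : ∀ S, star (C S) = C S := by
    intro S
    show star (∏ i ∈ S, c i) = ∏ i ∈ S, c i
    rw [star_prod]
    exact Finset.prod_congr rfl fun i _ => hcstar i
  have hC1 : ∀ S, ‖C S‖ = 1 := by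
    intro S
    show ‖∏ i ∈ S, c i‖ = 1
    rw [norm_prod]
    refine Finset.prod_eq_one fun i _ => ?_
    rcases hc i with h | h <;> rw [h] <;> simp
  obtain ⟨ρ, hρ, hρg⟩ := vec hu (kerK K q hq) (powerset (range n)) ⟨∅, by simp⟩ W C
    (fun S _ => hC1 S) (by
      intro S hS T hT h
      rw [mem_powerset] at hS hT
      rw [mem_kerK (hWK S) (hWK T), hWq, hWq] at h
      have h1 := heven (fun i => (if i ∈ T then (1 : ℤ) else 0) - (if i ∈ S then 1 else 0))
        (by rw [sum_rel hS hT, h, sub_self])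
      ext i
      by_cases hi : i < n
      · have h2 := h1 i hi
        by_cases hiS : i ∈ S <;> by_cases hiT : i ∈ T <;> simp [hiS, hiT] at h2 ⊢
      · exact ⟨fun h3 => absurd (mem_range.1 (hS h3)) hi, fun h3 => absurd (mem_range.1 (hT h3)) hi⟩)
  refine ⟨ρ, hρ, fun j hj => ?_⟩
  -- the flip
  let F : Finset ℕ → Finset ℕ := fun T => if j ∈ T then T.erase j else insert j T
  have hFI : ∀ T ∈ powerset (range n), F T ∈ powerset (range n) := by
    intro T hT
    rw [mem_powerset] at hT ⊢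
    show (if j ∈ T then T.erase j else insert j T) ⊆ range n
    split_ifs
    · exact (erase_subset _ _).trans hT
    · exact insert_subset (mem_range.2 hj) hT
  have hFC : ∀ T, C (F T) = c j * C T := by
    intro T
    show ∏ i ∈ (if j ∈ T then T.erase j else insert j T), c i = c j * ∏ i ∈ T, c i
    split_ifs with h
    · rw [← mul_prod_erase T c h, ← mul_assoc, hcsq, one_mul]
    · rw [prod_insert h]
  have hFq : ∀ T, q (w j) + ∑ i ∈ T, q (w i) = ∑ i ∈ F T, q (w i) := by
    intro T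
    show q (w j) + ∑ i ∈ T, q (w i) = ∑ i ∈ (if j ∈ T then T.erase j else insert j T), q (w i)
    split_ifs with h
    · rw [← add_sum_erase T (fun i => q (w i)) h, ← add_assoc, ← two_zsmul, h2q, zero_add]
    · rw [sum_insert h]
  have hcond : ∀ S ∈ powerset (range n), ∀ T ∈ powerset (range n),
      ((W S)⁻¹ * (w j * W T) ∈ kerK K q hq ↔ S = F T) := by
    intro S hS T hT
    rw [mem_kerK (hWK S) (K.mul_mem (hw j) (hWK T)), hq _ (hw j) _ (hWK T), hWq, hWq, hFq]
    constructor
    · intro h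
      have hF := mem_powerset.1 (hFI T hT)
      rw [mem_powerset] at hS
      have h1 := heven (fun i => (if i ∈ F T then (1 : ℤ) else 0) - (if i ∈ S then 1 else 0))
        (by rw [sum_rel hS hF, h, sub_self])
      ext i
      by_cases hi : i < n
      · have h2 := h1 i hi
        by_cases hiS : i ∈ S <;> by_cases hiT : i ∈ F T <;> simp [hiS, hiT] at h2 ⊢
      · exact ⟨fun h3 => absurd (mem_range.1 (hS h3)) hi, fun h3 => absurd (mem_range.1 (hF h3)) hi⟩
    · rintro rfl
      rfl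
  have hsum : ∑ S ∈ powerset (range n), ∑ T ∈ powerset (range n), star (C S) * C T *
      (if (W S)⁻¹ * (w j * W T) ∈ kerK K q hq then (1 : ℂ) else 0) = 2 ^ n * c j := by
    rw [Finset.sum_comm]
    have h1 : ∀ T ∈ powerset (range n), ∑ S ∈ powerset (range n), star (C S) * C T *
        (if (W S)⁻¹ * (w j * W T) ∈ kerK K q hq then (1 : ℂ) else 0) = c j := by
      intro T hT
      rw [Finset.sum_eq_single (F T)]
      · rw [if_pos ((hcond _ (hFI T hT) T hT).2 rfl), mul_one, hCstar, hFC, mul_assoc, hCsq,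
          mul_one]
      · intro S hS hne
        rw [if_neg, mul_zero]
        intro h
        exact hne ((hcond S hS T hT).1 h)
      · intro h
        exact absurd (hFI T hT) h
    rw [Finset.sum_congr rfl h1, Finset.sum_const, nsmul_eq_mul, card_powerset, card_range]
    push_cast
    rfl
  rw [hρg, hsum, card_powerset, card_range]
  have h2 : (2 : ℂ) ^ n ≠ 0 := by positivity
  have h3 : c j * ((((2 ^ n : ℕ) : ℂ))⁻¹ * (2 ^ n * c j)) = 1 := by
    push_cast
    rw [← mul_assoc ((2 : ℂ) ^ n)⁻¹, inv_mul_cancel₀ h2, one_mul, hcsq]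
  rw [h3]
  norm_num

end Pool.Agent.P8H78.PG
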